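import Pool.Agent.Lead.BP.Jit

open Pool.Agent.H38.NP Pool.Agent.Lead.BP

theorem Pool.Agent.Results.MP_0403ae_lc.Complete.result :
    NPHardOn Valid Feas ∧ InNPOn Valid Feas :=
  ⟨feas_nph.npHardOn, feas_NP⟩
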